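import Pool.Agent.Helper39.HR.Stmts

/-!
# Hereditary independence ratio 1/3: iteration of the splitting step
-/

namespace Pool.Agent.Helper60.HR

open Finset Pool.Agent.Helper39.HR
open scoped Classical

theorem st_iter (hS : ST_SPLIT) : ST_ITER := by
  obtain ⟨c, C, hc0, hc1, hC, hsplit⟩ := hS
  refine ⟨c, C, hc0, hc1, hC, ?_⟩
  intro V _ G d J hH hd h1 hJ
  have hθ0 : 0 < (1 - c) / 2 := by linarith
  have hθ1 : (1 - c) / 2 ≤ 1 := by linarith
  have hd0 : 0 < d := by linarith
  have key : ∀ j : ℕ, j ≤ J → ∃ f : Fin (2 ^ j) → V → ℝ, (∀ i x, 0 ≤ f i x) ∧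
      (∀ x, ∑ i, f i x = 1) ∧ ∀ i, Sup G (f i) (((1 - c) / 2) ^ j * d) := by
    intro j
    induction j with
    | zero =>
      intro _
      refine ⟨fun _ _ => 1, fun _ _ => zero_le_one, fun x => by simp, fun i => ?_⟩
      refine ⟨fun _ => 1, fun _ => one_pos, fun x => ?_⟩
      simpa using hd x
    | succ j ih =>
      intro hj
      obtain ⟨f, hf0, hf1, hfS⟩ := ih (by omega)
      have hr0 : 0 < ((1 - c) / 2) ^ j * d := mul_pos (pow_pos hθ0 j) hd0
      have hrd : ((1 - c) / 2) ^ j * d ≤ d := by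
        have := pow_le_one₀ (n := j) hθ0.le hθ1
        nlinarith
      have hCr : C * d ^ 4 ≤ (((1 - c) / 2) ^ j * d) ^ 5 := by
        refine hJ.trans ?_
        have h2 : ((1 - c) / 2) ^ J ≤ ((1 - c) / 2) ^ j :=
          pow_le_pow_of_le_one hθ0.le hθ1 (by omega)
        have h3 : 0 ≤ ((1 - c) / 2) ^ J * d := mul_nonneg (pow_nonneg hθ0.le J) hd0.le
        exact pow_le_pow_left₀ h3 (mul_le_mul_of_nonneg_right h2 hd0.le) 5
      have hfle : ∀ i x, f i x ≤ 1 := by
        intro i x
        rw [← hf1 x]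
        exact Finset.single_le_sum (f := fun i => f i x) (fun k _ => hf0 k x) (Finset.mem_univ i)
      have hex : ∀ i, ∃ g : V → ℝ, (∀ x, 0 ≤ g x) ∧ (∀ x, g x ≤ 1) ∧
          Sup G (fun x => f i x * g x) ((1 - c) / 2 * (((1 - c) / 2) ^ j * d)) ∧
          Sup G (fun x => f i x * (1 - g x)) ((1 - c) / 2 * (((1 - c) / 2) ^ j * d)) :=
        fun i => hsplit V G d _ (f i) hH hd h1 (hf0 i) (hfle i) (hfS i) hr0 hrd hCr
      choose g hg0 hg1 hgS hgS' using hex
      have hpow : ((1 - c) / 2) ^ (j + 1) * d = (1 - c) / 2 * (((1 - c) / 2) ^ j * d) := by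
        rw [pow_succ]; ring
      have hcard : Fintype.card (Fin (2 ^ (j + 1))) = Fintype.card (Fin (2 ^ j) × Bool) := by
        simp [pow_succ]
      let e : Fin (2 ^ (j + 1)) ≃ Fin (2 ^ j) × Bool := Fintype.equivOfCardEq hcard
      let F : Fin (2 ^ j) × Bool → V → ℝ := fun p x =>
        if p.2 = true then f p.1 x * g p.1 x else f p.1 x * (1 - g p.1 x)
      refine ⟨fun i => F (e i), ?_, ?_, ?_⟩
      · intro i x
        show 0 ≤ F (e i) x
        simp only [F]
        split_ifs
        · exact mul_nonneg (hf0 _ _) (hg0 _ _)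
        · exact mul_nonneg (hf0 _ _) (by linarith [hg1 (e i).1 x])
      · intro x
        rw [Equiv.sum_comp e (fun p => F p x), Fintype.sum_prod_type]
        rw [← hf1 x]
        refine Finset.sum_congr rfl fun i _ => ?_
        rw [Fintype.sum_bool]
        simp only [F, if_true, Bool.false_eq_true, if_false]
        ring
      · intro i
        rw [hpow]
        show Sup G (F (e i)) _
        obtain ⟨a, b⟩ := e i
        cases b with
        | true => simpa [F] using hgS a
        | false => simpa [F] using hgS' a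
  exact key J le_rfl

end Pool.Agent.Helper60.HR
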